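import Pool.Agent.NDR.StmtsC
import Pool.Agent.Helper32_GEN.GLB

/-!
# Squad NDR, row CRM (helper39)

The functional equation for the convenient perturbation, adjoint form.
-/

set_option autoImplicit false

namespace Pool.Agent.NDR.H39

open Finset Pool.Agent.Helper6_Mono Pool.Agent.Helper30_Simp

section alg

variable {σ : Type} {R : Type} [CommRing R]

theorem pderiv_comm' (i j : Option σ) (p : MvPolynomial (Option σ) R) :
    MvPolynomial.pderiv i (MvPolynomial.pderiv j p)
      = MvPolynomial.pderiv j (MvPolynomial.pderiv i p) := by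
  classical
  by_cases hij : i = j
  · rw [hij]
  refine MvPolynomial.ext _ _ fun m => ?_
  rw [MvPolynomial.coeff_pderiv, MvPolynomial.coeff_pderiv, MvPolynomial.coeff_pderiv,
    MvPolynomial.coeff_pderiv]
  have h1 : (m + Finsupp.single i 1 : Option σ →₀ ℕ) j = m j := by
    rw [Finsupp.add_apply, Finsupp.single_eq_of_ne (Ne.symm hij), add_zero]
  have h2 : (m + Finsupp.single j 1 : Option σ →₀ ℕ) i = m i := by
    rw [Finsupp.add_apply, Finsupp.single_eq_of_ne hij, add_zero]
  rw [h1, h2, add_right_comm]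
  ring

theorem dE_add (f : MvPolynomial (Option σ) R) (i : σ) (P Q : MvPolynomial (Option σ) R) :
    dE f i (P + Q) = dE f i P + dE f i Q := by
  unfold dE
  rw [map_add]
  ring

theorem dE_zero (f : MvPolynomial (Option σ) R) (i : σ) : dE f i 0 = 0 := by
  unfold dE
  rw [map_zero]
  ring

theorem dE_neg (f : MvPolynomial (Option σ) R) (i : σ) (P : MvPolynomial (Option σ) R) :
    dE f i (-P) = - dE f i P := by
  unfold dE
  rw [map_neg]
  ring

theorem dE_C (f : MvPolynomial (Option σ) R) (i : σ) (a : R) (P : MvPolynomial (Option σ) R) :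
    dE f i (MvPolynomial.C a * P) = MvPolynomial.C a * dE f i P := by
  unfold dE
  rw [MvPolynomial.pderiv_C_mul]
  ring

theorem tE_add (f : MvPolynomial (Option σ) R) (s : R) (P Q : MvPolynomial (Option σ) R) :
    tE f s (P + Q) = tE f s P + tE f s Q := by
  unfold tE
  rw [map_add]
  ring

theorem tE_zero (f : MvPolynomial (Option σ) R) (s : R) : tE f s 0 = 0 := by
  unfold tE
  rw [map_zero]
  ring

theorem tE_neg (f : MvPolynomial (Option σ) R) (s : R) (P : MvPolynomial (Option σ) R) :
    tE f s (-P) = - tE f s P := by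
  unfold tE
  rw [map_neg]
  ring

theorem tE_C (f : MvPolynomial (Option σ) R) (s a : R) (P : MvPolynomial (Option σ) R) :
    tE f s (MvPolynomial.C a * P) = MvPolynomial.C a * tE f s P := by
  unfold tE
  rw [MvPolynomial.pderiv_C_mul]
  ring

/-- the Leibniz rule (a) -/
theorem leib_t (f g : MvPolynomial (Option σ) R) (s : R) (Q P : MvPolynomial (Option σ) R) :
    Q * tE f 0 P + tE g s Q * P = tE (f + g) s (Q * P) := by
  unfold tE
  rw [MvPolynomial.pderiv_mul, map_zero]
  ring

/-- the Leibniz rule (b) -/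
theorem leib_d (f g : MvPolynomial (Option σ) R) (i : σ) (Q P : MvPolynomial (Option σ) R) :
    Q * dE f i P + dE g i Q * P = dE (f + g) i (Q * P) := by
  unfold dE
  rw [MvPolynomial.pderiv_mul, map_add]
  ring

theorem dE_comm (f : MvPolynomial (Option σ) R) (i j : σ) (P : MvPolynomial (Option σ) R) :
    dE f i (dE f j P) = dE f j (dE f i P) := by
  have hz : ∀ l : σ, MvPolynomial.pderiv (some l) (MvPolynomial.X none : MvPolynomial (Option σ) R)
      = 0 := fun l => MvPolynomial.pderiv_X_of_ne (by simp)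
  unfold dE
  simp only [map_add, MvPolynomial.pderiv_mul, hz]
  rw [pderiv_comm' (some j) (some i) P, pderiv_comm' (some j) (some i) f]
  ring

theorem dEw_comm (f : MvPolynomial (Option σ) R) (i : σ) (w : List σ)
    (P : MvPolynomial (Option σ) R) : dE f i (dEw f w P) = dEw f w (dE f i P) := by
  induction w with
  | nil => rfl
  | cons j w ih =>
    change dE f i (dE f j (dEw f w P)) = dE f j (dEw f w (dE f i P))
    rw [dE_comm, ih]

variable (σ R) in
/-- polynomials with exponents in `S` -/
def GG (S : Set (Option σ →₀ ℕ)) : AddSubgroup (MvPolynomial (Option σ) R) where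
  carrier := {P | SupIn S P}
  zero_mem' := by
    intro n hn
    simp at hn
  add_mem' := by
    classical
    intro P Q hP hQ n hn
    rcases Finset.mem_union.1 (MvPolynomial.support_add hn) with h | h
    · exact hP n h
    · exact hQ n h
  neg_mem' := by
    intro P hP n hn
    rw [MvPolynomial.support_neg] at hn
    exact hP n hn

theorem mem_GG {S : Set (Option σ →₀ ℕ)} {P : MvPolynomial (Option σ) R} :
    P ∈ GG σ R S ↔ SupIn S P := Iff.rfl

/-- the images of the operators -/
def EE (I : Finset σ) (f : MvPolynomial (Option σ) R) (s : R) :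
    AddSubgroup (MvPolynomial (Option σ) R) where
  carrier := {P | ∃ h : Option σ → MvPolynomial (Option σ) R,
    P = ∑ i ∈ I, dE f i (h (some i)) + tE f s (h none)}
  zero_mem' := ⟨fun _ => 0, by simp [dE_zero, tE_zero]⟩
  add_mem' := by
    rintro P Q ⟨h, rfl⟩ ⟨h', rfl⟩
    refine ⟨fun v => h v + h' v, ?_⟩
    simp only [dE_add, tE_add, Finset.sum_add_distrib]
    ring
  neg_mem' := by
    rintro P ⟨h, rfl⟩
    refine ⟨fun v => - h v, ?_⟩
    simp only [dE_neg, tE_neg, Finset.sum_neg_distrib]
    ring

theorem dE_mem {I : Finset σ} (f : MvPolynomial (Option σ) R) (s : R) {i : σ} (hi : i ∈ I)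
    (P : MvPolynomial (Option σ) R) : dE f i P ∈ EE I f s := by
  classical
  refine ⟨fun v => if v = some i then P else 0, ?_⟩
  rw [Finset.sum_eq_single i]
  · simp [tE_zero]
  · intro j _ hji
    have : ¬ (some j = some i) := fun h => hji (Option.some_injective _ h)
    simp only [this, if_false]
    exact dE_zero f j
  · intro h
    exact absurd hi h

theorem tE_mem (I : Finset σ) (f : MvPolynomial (Option σ) R) (s : R)
    (P : MvPolynomial (Option σ) R) : tE f s P ∈ EE I f s := by
  classical
  refine ⟨fun v => if v = none then P else 0, ?_⟩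
  rw [Finset.sum_eq_zero]
  · simp
  · intro j _
    simp only [reduceCtorEq, if_false]
    exact dE_zero f j

theorem C_mul_mem {I : Finset σ} {f : MvPolynomial (Option σ) R} {s : R} (a : R)
    {P : MvPolynomial (Option σ) R} (hP : P ∈ EE I f s) : MvPolynomial.C a * P ∈ EE I f s := by
  obtain ⟨h, rfl⟩ := hP
  refine ⟨fun v => MvPolynomial.C a * h v, ?_⟩
  simp only [dE_C, tE_C]
  rw [mul_add, Finset.mul_sum]

/-- the adjoint operator -/
noncomputable def SS (g : MvPolynomial (Option σ) R) (s : R) (Q : MvPolynomial (Option σ) R) :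
    MvPolynomial (Option σ) R := - tE g s Q

/-- moving the powers of `tE f 0` to the other factor -/
theorem move_t (I : Finset σ) (f g : MvPolynomial (Option σ) R) (s : R) (j : ℕ) :
    ∀ Q P : MvPolynomial (Option σ) R,
      Q * (tE f 0)^[j] P - (SS g s)^[j] Q * P ∈ EE I (f + g) s := by
  induction j with
  | zero =>
    intro Q P
    simp only [Function.iterate_zero, id_eq, sub_self]
    exact AddSubgroup.zero_mem _
  | succ j ih =>
    intro Q P
    rw [Function.iterate_succ_apply, Function.iterate_succ_apply']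
    have h1 := ih Q (tE f 0 P)
    have h2 := tE_mem I (f + g) s ((SS g s)^[j] Q * P)
    rw [← leib_t] at h2
    have h3 := AddSubgroup.add_mem _ h1 h2
    have h4 : Q * (tE f 0)^[j] (tE f 0 P) - (SS g s)^[j] Q * tE f 0 P
        + ((SS g s)^[j] Q * tE f 0 P + tE g s ((SS g s)^[j] Q) * P)
        = Q * (tE f 0)^[j] (tE f 0 P) - SS g s ((SS g s)^[j] Q) * P := by
      unfold SS
      ring
    rw [h4] at h3
    exact h3

theorem supIn_mono {S T : Set (Option σ →₀ ℕ)} (h : S ⊆ T) {P : MvPolynomial (Option σ) R}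
    (hP : SupIn S P) : SupIn T P := fun n hn => h (hP n hn)

theorem supIn_neg {S : Set (Option σ →₀ ℕ)} {P : MvPolynomial (Option σ) R}
    (hP : SupIn S P) : SupIn S (-P) := by
  intro n hn
  rw [MvPolynomial.support_neg] at hn
  exact hP n hn

/-- supports of products -/
theorem supIn_mul {S T U : Set (Option σ →₀ ℕ)} (h : ∀ m ∈ S, ∀ n ∈ T, m + n ∈ U)
    {P Q : MvPolynomial (Option σ) R} (hP : SupIn S P) (hQ : SupIn T Q) : SupIn U (P * Q) := by
  classical
  intro n hn
  obtain ⟨a, ha, b, hb, rfl⟩ := Finset.mem_add.1 (MvPolynomial.support_mul P Q hn)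
  exact h a (hP a ha) b (hQ b hb)

end alg

theorem good_mono {σ : Type} [Fintype σ] {M : Finset (σ →₀ ℕ)} {I : Finset σ} {L D D' : ℕ}
    {u : Option σ → ℤ} (h : GoodX M I L D u) (hD : D ≤ D') : GoodX M I L D' u :=
  ⟨h.nn, h.np, h.kap, h.inf.trans (by
    have : (D : ℤ) ≤ D' := by exact_mod_cast hD
    linarith)⟩

/-- good exponents -/
def GS {σ : Type} [Fintype σ] (M : Finset (σ →₀ ℕ)) (I : Finset σ) (L D : ℕ) :
    Set (Option σ →₀ ℕ) := {n | GoodX M I L D (fun v => ((n v : ℕ) : ℤ))}

/-- the claim on words -/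
theorem move_w (hcls : ClsStmt) (hclv : ClvStmt) (hclc : ClcStmt) {σ : Type} [Fintype σ]
    {R : Type} [CommRing R] (M : Finset (σ →₀ ℕ)) (I : Finset σ) (L D D' d : ℕ)
    (f : MvPolynomial σ R) (hf : f.support ⊆ M) (c : σ → R) (s : R) (hDL : D < L)
    (hdD : d + D' ≤ D) (hD' : ∀ α ∈ M, ∑ i ∈ I, α i ≤ D') (w : List σ) :
    ∀ (t : ℕ) (Q P : MvPolynomial (Option σ) R), t + w.length ≤ D →
      SupIn (Wc I L t ∩ Uc I L d) Q → SupIn (Vc M I) P →
      Q * dEw (inc f) w P ∈
        EE I (inc f + inc (∑ i ∈ I, MvPolynomial.C (c i) * MvPolynomial.X i ^ L)) s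
          ⊔ GG σ R (GS M I L D) := by
  induction w with
  | nil =>
    intro t Q P ht hQ hP
    refine AddSubgroup.mem_sup_right ?_
    change SupIn (GS M I L D) (Q * P)
    refine supIn_mul (fun m hm n hn => ?_) hQ hP
    have h1 := hclc σ M I L t d D' (by simp at ht; omega) (by omega) hD' m hm n hn
    exact good_mono h1 hdD
  | cons i w ih =>
    intro t Q P ht hQ hP
    rw [List.length_cons] at ht
    by_cases hi : i ∈ I
    · change Q * dE (inc f) i (dEw (inc f) w P) ∈ _
      set g : MvPolynomial (Option σ) R :=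
        inc (∑ i ∈ I, MvPolynomial.C (c i) * MvPolynomial.X i ^ L) with hg
      have h1 := dE_mem (inc f + g) s hi (Q * dEw (inc f) w P)
      rw [← leib_d] at h1
      have h2 : SupIn (Wc I L (t + 1) ∩ Uc I L d) (dE g i Q) :=
        (hcls σ R I L t d c s Q hQ).2.1 i hi
      have h3 := ih (t + 1) (-(dE g i Q)) P (by omega) (supIn_neg h2) hP
      have h4 : Q * dE (inc f) i (dEw (inc f) w P)
          = (Q * dE (inc f) i (dEw (inc f) w P) + dE g i Q * dEw (inc f) w P)
            + -(dE g i Q) * dEw (inc f) w P := by ring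
      rw [h4]
      exact AddSubgroup.add_mem _ (AddSubgroup.mem_sup_left h1) h3
    · change Q * dE (inc f) i (dEw (inc f) w P) ∈ _
      rw [dEw_comm]
      exact ih t Q (dE (inc f) i P) (by omega) hQ ((hclv σ R M I f hf).2 P hP i hi)

section mapping

variable {σ : Type} {k R : Type} [CommRing k] [CommRing R] (φ : k →+* R)

theorem map_tE (f : MvPolynomial (Option σ) k) (P : MvPolynomial (Option σ) k) :
    MvPolynomial.map φ (tE f 0 P) = tE (MvPolynomial.map φ f) 0 (MvPolynomial.map φ P) := by
  unfold tE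
  simp only [map_add, map_sub, map_mul, MvPolynomial.map_X, map_zero, MvPolynomial.pderiv_map]

theorem map_dE (f : MvPolynomial (Option σ) k) (i : σ) (P : MvPolynomial (Option σ) k) :
    MvPolynomial.map φ (dE f i P) = dE (MvPolynomial.map φ f) i (MvPolynomial.map φ P) := by
  unfold dE
  simp only [map_add, map_mul, MvPolynomial.map_X, MvPolynomial.pderiv_map]

theorem map_tE_iter (f : MvPolynomial (Option σ) k) (j : ℕ) :
    ∀ P : MvPolynomial (Option σ) k, MvPolynomial.map φ ((tE f 0)^[j] P)
      = (tE (MvPolynomial.map φ f) 0)^[j] (MvPolynomial.map φ P) := by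
  induction j with
  | zero =>
    intro P
    rfl
  | succ j ih =>
    intro P
    rw [Function.iterate_succ_apply, Function.iterate_succ_apply, ih, map_tE]

theorem map_dEw (f : MvPolynomial (Option σ) k) (w : List σ) (P : MvPolynomial (Option σ) k) :
    MvPolynomial.map φ (dEw f w P) = dEw (MvPolynomial.map φ f) w (MvPolynomial.map φ P) := by
  induction w with
  | nil => rfl
  | cons i w ih =>
    change MvPolynomial.map φ (dE f i (dEw f w P)) = dE _ i (dEw _ w _)
    rw [map_dE, ih]

theorem map_inc (f : MvPolynomial σ k) :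
    MvPolynomial.map φ (inc f) = inc (MvPolynomial.map φ f) := by
  unfold inc
  exact MvPolynomial.map_rename φ some f

end mapping

/-- a common bound for a finite list -/
theorem list_bound {σ : Type} (P : List (Polynomial (MvPolynomial σ ℂ) × List σ)) :
    ∃ B : ℕ, ∀ aw ∈ P, aw.2.length ≤ B ∧ ∀ j, (aw.1.coeff j).totalDegree ≤ B := by
  induction P with
  | nil => exact ⟨0, fun aw h => by simp at h⟩
  | cons aw P ih =>
    obtain ⟨B, hB⟩ := ih
    refine ⟨B + aw.2.length + aw.1.support.sup fun j => (aw.1.coeff j).totalDegree, ?_⟩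
    intro aw' h
    rcases List.mem_cons.1 h with rfl | h
    · refine ⟨by omega, fun j => ?_⟩
      by_cases hj : j ∈ aw'.1.support
      · have := Finset.le_sup (f := fun j => (aw'.1.coeff j).totalDegree) hj
        omega
      · rw [Polynomial.notMem_support_iff.1 hj]
        simp
    · obtain ⟨h1, h2⟩ := hB aw' h
      refine ⟨by omega, fun j => ?_⟩
      have := h2 j
      omega

theorem sum_le_totalDegree {σ : Type} [Fintype σ] {k : Type} [CommRing k] (a : MvPolynomial σ k)
    (I : Finset σ) {β : σ →₀ ℕ} (hβ : β ∈ a.support) : ∑ i ∈ I, β i ≤ a.totalDegree := by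
  refine le_trans ?_ (MvPolynomial.le_totalDegree hβ)
  rw [Finsupp.sum_fintype _ _ (fun _ => rfl)]
  exact Finset.sum_le_sum_of_subset (Finset.subset_univ I)

/-- row CRM -/
theorem crm (hcex : CexStmt) (hcls : ClsStmt) (hclv : ClvStmt) (hclc : ClcStmt)
    (hcle : CleStmt) : CrmStmt := by
  intro σ _ F b hb
  obtain ⟨Pl, hPl⟩ := GEN.H32.glb σ F b hb
  have hid := hcex σ F b Pl hPl
  obtain ⟨B, hB⟩ := list_bound Pl
  refine ⟨B + F.totalDegree + 1, ?_⟩
  intro I K _ _ c L hDL R _ _ _ _ s
  set D := B + F.totalDegree + 1 with hD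
  -- the polynomials over `R`
  let f : MvPolynomial σ R := MvPolynomial.map (algebraMap ℂ R) F
  let g : MvPolynomial σ R :=
    ∑ i ∈ I, MvPolynomial.C (algebraMap K R (c i)) * MvPolynomial.X i ^ L
  have hfg : MvPolynomial.map (algebraMap K R) (fpr F I c L) = f + g := by
    unfold fpr
    rw [map_add, MvPolynomial.map_map, ← IsScalarTower.algebraMap_eq, map_sum]
    simp only [map_mul, map_pow, MvPolynomial.map_C, MvPolynomial.map_X]
    rfl
  have hinc : inc (f + g) = inc f + inc g := by
    unfold inc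
    rw [map_add]
  have hfM : f.support ⊆ F.support := MvPolynomial.support_map_subset _ _
  have hDF : ∀ α ∈ F.support, ∑ i ∈ I, α i ≤ F.totalDegree :=
    fun α hα => sum_le_totalDegree F I hα
  let MM : AddSubgroup (MvPolynomial (Option σ) R) :=
    EE I (inc f + inc g) s ⊔ GG σ R (GS F.support I L D)
  -- the right side
  have hright : ∀ aw ∈ Pl, ∀ j, inc (MvPolynomial.map (algebraMap ℂ R) (aw.1.coeff j)) *
      (tE (inc f) 0)^[j] (dEw (inc f) aw.2 (inc f)) ∈ MM := by
    intro aw haw j
    obtain ⟨hlen, hdeg⟩ := hB aw haw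
    have h1 := move_t I (inc f) (inc g) s j (inc (MvPolynomial.map (algebraMap ℂ R) (aw.1.coeff j)))
      (dEw (inc f) aw.2 (inc f))
    have hstart : SupIn (Wc I L 0 ∩ Uc I L B)
        (inc (MvPolynomial.map (algebraMap ℂ R) (aw.1.coeff j))) := by
      have h2 : SupIn (Wc I L 0 ∩ Uc I L 0) (1 : MvPolynomial (Option σ) R) := by
        intro n hn
        have hn0 : n = 0 := by
          classical
          by_contra hne
          rw [MvPolynomial.mem_support_iff, MvPolynomial.coeff_one, if_neg (Ne.symm hne)] at hn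
          exact hn rfl
        subst hn0
        refine ⟨⟨fun _ => 0, by simp, by simp⟩, ?_⟩
        change ∑ i ∈ I, (0 : Option σ →₀ ℕ) (some i) ≤ _
        simp
      have h3 := (hcls σ R I L 0 0 (fun i => algebraMap K R (c i)) s 1 h2).2.2
        (MvPolynomial.map (algebraMap ℂ R) (aw.1.coeff j)) B (fun β hβ =>
          (sum_le_totalDegree (aw.1.coeff j) I
            (MvPolynomial.support_map_subset _ _ hβ)).trans (hdeg j))
      rw [mul_one, zero_add] at h3
      exact h3
    have hiter : ∀ l : ℕ, SupIn (Wc I L 0 ∩ Uc I L B)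
        ((SS (inc g) s)^[l] (inc (MvPolynomial.map (algebraMap ℂ R) (aw.1.coeff j)))) := by
      intro l
      induction l with
      | zero => exact hstart
      | succ l ih =>
        rw [Function.iterate_succ_apply']
        exact supIn_neg (hcls σ R I L 0 B (fun i => algebraMap K R (c i)) s _ ih).1
    have h4 := move_w hcls hclv hclc F.support I L D F.totalDegree B f hfM
      (fun i => algebraMap K R (c i)) s hDL (by omega) hDF aw.2 0 _ (inc f) (by omega) (hiter j)
      (hclv σ R F.support I f hfM).1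
    have h5 := AddSubgroup.add_mem MM (AddSubgroup.mem_sup_left h1) h4
    rw [sub_add_cancel] at h5
    exact h5
  -- the identity over `R`
  have hidR : (∑ j ∈ b.support, MvPolynomial.C (algebraMap ℂ R (b.coeff j)) *
      (tE (inc f) 0)^[j] (1 : MvPolynomial (Option σ) R)) ∈ MM := by
    have h1 := congrArg (MvPolynomial.map (algebraMap ℂ R)) hid
    rw [Polynomial.sum_def, map_sum, map_list_sum, List.map_map] at h1
    simp only [map_mul, MvPolynomial.map_C, map_tE_iter, map_inc, map_one] at h1
    change (∑ j ∈ b.support, MvPolynomial.C (algebraMap ℂ R (b.coeff j)) *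
      (tE (inc f) 0)^[j] (1 : MvPolynomial (Option σ) R)) = _ at h1
    rw [h1]
    refine list_sum_mem ?_
    intro x hx
    obtain ⟨aw, haw, rfl⟩ := List.mem_map.1 hx
    simp only [Function.comp_apply]
    rw [Polynomial.sum_def, map_sum]
    refine AddSubgroup.sum_mem _ fun j _ => ?_
    simp only [map_mul, map_tE_iter, map_dEw, map_inc]
    exact hright aw haw j
  -- the left side
  have hleft : (∑ j ∈ b.support, MvPolynomial.C (algebraMap ℂ R (b.coeff j)) *
      (tE (inc f) 0)^[j] (1 : MvPolynomial (Option σ) R))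
      - (∑ j ∈ b.support, MvPolynomial.C (algebraMap ℂ R (b.coeff j)) *
      (SS (inc g) s)^[j] (1 : MvPolynomial (Option σ) R)) ∈ MM := by
    rw [← Finset.sum_sub_distrib]
    refine AddSubgroup.sum_mem _ fun j _ => AddSubgroup.mem_sup_left ?_
    rw [← mul_sub]
    refine C_mul_mem _ ?_
    have h1 := move_t I (inc f) (inc g) s j 1 1
    rw [one_mul, mul_one] at h1
    exact h1
  have hcon : (∑ j ∈ b.support, MvPolynomial.C (algebraMap ℂ R (b.coeff j)) *
      (SS (inc g) s)^[j] (1 : MvPolynomial (Option σ) R))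
      - MvPolynomial.C (Polynomial.aeval s b) ∈ MM := by
    refine AddSubgroup.mem_sup_right ?_
    obtain ⟨h1, h2⟩ := hcle σ I L (by omega)
    have h3 := h1 R (fun i => algebraMap K R (c i)) s (b.map (algebraMap ℂ R))
    have h4 : (b.map (algebraMap ℂ R)).eval s = Polynomial.aeval s b := by
      rw [Polynomial.eval_map, Polynomial.aeval_def]
    rw [h4, Polynomial.sum_eq_of_subset _ (fun i => by simp) (Polynomial.support_map_subset _ _)]
      at h3
    simp only [Polynomial.coeff_map] at h3
    exact fun n hn => h2 F.support D n (h3 n hn)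
  have hfin : MvPolynomial.C (Polynomial.aeval s b) ∈ MM := by
    have h1 := AddSubgroup.sub_mem MM (AddSubgroup.sub_mem MM hidR hleft) hcon
    rw [sub_sub_cancel, sub_sub_cancel] at h1
    exact h1
  obtain ⟨y, hy, z, hz, hyz⟩ := AddSubgroup.mem_sup.1 hfin
  obtain ⟨h, hh⟩ := hy
  refine ⟨-z, h, ?_, supIn_neg hz⟩
  rw [hfg, hinc, ← hyz, ← hh]
  ring

end Pool.Agent.NDR.H39
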